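import Pool.Agent.helper19.FR.Spec

/-!
# Row fr:KFR (MP_bf63dc_nt): among four integers two form a good pair, up to a bounded number of ratios
-/

set_option autoImplicit false

namespace Pool.Agent.FR

open Finset Real Pool.Agent.AT Pool.Agent.OM Pool.Agent.helper85.FC

theorem KFR_sum {T ι : Type} [Fintype T] (S : Finset ι) (f : ι → T → ℝ) :
    mean (fun x => ∑ i ∈ S, f i x) = ∑ i ∈ S, mean (f i) := by
  unfold mean
  rw [Finset.sum_comm, Finset.sum_div]

theorem KFR_cs {T : Type} [Fintype T] [Nonempty T] (f : T → ℝ) : mean f ^ 2 ≤ mean (fun x => f x ^ 2) := by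
  unfold mean
  have h0 : (0 : ℝ) < (Fintype.card T : ℝ) := by exact_mod_cast Fintype.card_pos
  have h1 : (∑ x, f x) ^ 2 ≤ (Fintype.card T : ℝ) * ∑ x, f x ^ 2 := by
    have h := sq_sum_le_card_mul_sum_sq (s := (Finset.univ : Finset T)) (f := f)
    rw [Finset.card_univ] at h
    exact h
  rw [div_pow, div_le_div_iff₀ (by positivity) h0]
  nlinarith

theorem KFR_mono {T : Type} [Fintype T] (f g : T → ℝ) (h : ∀ x, f x ≤ g x) : mean f ≤ mean g := by
  unfold mean
  exact div_le_div_of_nonneg_right (Finset.sum_le_sum fun x _ => h x) (Nat.cast_nonneg _)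

theorem KFR (hLAM : LAM_stmt) : KFR_stmt := by
  intro ε hε
  obtain ⟨C, hC⟩ := hLAM ε (1 / 10000000) hε (by norm_num)
  refine ⟨C, fun F hF => ?_⟩
  obtain ⟨E, hE, T, hT1, hT2, A, hA, hd, hp⟩ := hC F (1 / 10000000) hF (by norm_num)
  refine ⟨E, hE, ?_⟩
  intro s hs hinj hrat
  by_contra hcon
  push Not at hcon
  have hpair : ∀ i j : Fin 4, i ≠ j → mean (fun x => A (s i) x * A (s j) x) ≤ 1 / 10000000 := by
    intro i j hij
    exact hp (s i) (hs i).2 (s j) (hs j).2 (fun h => hij (hinj h)) (hrat i j hij) (hcon i j hij)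
  have hm : ∀ i : Fin 4, 1 / 4 + 1 / 500000 - 1 / 10000000 ≤ mean (A (s i)) := fun i => hd (s i) (hs i).2
  set D : ℝ := ∑ i : Fin 4, mean (A (s i)) with hD
  have hD1 : 1 + 7 / 1000000 ≤ D := by
    rw [hD, Fin.sum_univ_four]
    linarith [hm 0, hm 1, hm 2, hm 3]
  have h1 : D ^ 2 ≤ mean (fun x => (∑ i : Fin 4, A (s i) x) ^ 2) := by
    rw [hD, ← KFR_sum]
    exact KFR_cs _
  have h2 : mean (fun x => (∑ i : Fin 4, A (s i) x) ^ 2) = ∑ i : Fin 4, ∑ j : Fin 4, mean (fun x => A (s i) x * A (s j) x) := by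
    have h3 : (fun x => (∑ i : Fin 4, A (s i) x) ^ 2) = fun x => ∑ i : Fin 4, ∑ j : Fin 4, A (s i) x * A (s j) x := by
      funext x
      rw [sq, Finset.sum_mul_sum]
    rw [h3, KFR_sum]
    refine Finset.sum_congr rfl fun i _ => ?_
    rw [KFR_sum]
  have h4 : ∀ i j : Fin 4, mean (fun x => A (s i) x * A (s j) x) ≤ if i = j then mean (A (s i)) else 1 / 10000000 := by
    intro i j
    by_cases hij : i = j
    · subst hij
      rw [if_pos rfl]
      refine KFR_mono _ _ fun x => ?_
      have h5 := hA (s i) x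
      nlinarith [h5.1, h5.2]
    · rw [if_neg hij]
      exact hpair i j hij
  have h6 : ∑ i : Fin 4, ∑ j : Fin 4, mean (fun x => A (s i) x * A (s j) x) ≤
      ∑ i : Fin 4, ∑ j : Fin 4, if i = j then mean (A (s i)) else 1 / 10000000 :=
    Finset.sum_le_sum fun i _ => Finset.sum_le_sum fun j _ => h4 i j
  have h9 : ∀ i : Fin 4, (∑ j : Fin 4, if i = j then mean (A (s i)) else (1 / 10000000 : ℝ)) = mean (A (s i)) + 3 / 10000000 := by
    intro i
    have h10 : ∀ j : Fin 4, (if i = j then mean (A (s i)) else (1 / 10000000 : ℝ)) =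
        1 / 10000000 + (if i = j then mean (A (s i)) - 1 / 10000000 else 0) := by
      intro j
      split_ifs <;> ring
    simp only [h10]
    rw [Finset.sum_add_distrib, Finset.sum_const, Finset.sum_ite_eq, if_pos (Finset.mem_univ _), Finset.card_univ,
      Fintype.card_fin, nsmul_eq_mul]
    push_cast
    ring
  have h7 : (∑ i : Fin 4, ∑ j : Fin 4, if i = j then mean (A (s i)) else (1 / 10000000 : ℝ)) = D + 12 / 10000000 := by
    simp only [h9]
    rw [Finset.sum_add_distrib, Finset.sum_const, Finset.card_univ, Fintype.card_fin, nsmul_eq_mul, ← hD]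
    push_cast
    ring
  have h8 : D ^ 2 ≤ D + 12 / 10000000 := by
    rw [h7] at h6
    linarith [h1, h2.le, h6]
  nlinarith

end Pool.Agent.FR
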